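import Pool.Agent.Helper30.DL.GoalsD

/-!
MP_b4564f_an, packet EINT (project DL of helper30): interpolation in `e`.
-/

set_option autoImplicit false

namespace Pool.Agent.Helper31.DL

open Pool.Agent.Helper30.DL

/-- a polynomial of degree five in `g` plus `e` times a quadratic polynomial -/
noncomputable def pq (A0 A1 A2 A3 A4 A5 q l k : ℝ) (e g : ℝ) : ℝ :=
  A0 + A1 * g + A2 * g ^ 2 + A3 * g ^ 3 + A4 * g ^ 4 + A5 * g ^ 5 + e * (q + l * g + k * g ^ 2)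

theorem pq_key (A0 A1 A2 A3 A4 A5 q l k e em g0 b : ℝ) :
    em * pq A0 A1 A2 A3 A4 A5 q l k e (g0 - e * b) - (em - e) * pq A0 A1 A2 A3 A4 A5 q l k 0 g0
      - e * pq A0 A1 A2 A3 A4 A5 q l k em (g0 - em * b)
    = e * (e - em) * em * (b ^ 2 * (A2 + A3 * (g0 + (g0 - e * b) + (g0 - em * b))
      + A4 * (g0 ^ 2 + (g0 - e * b) ^ 2 + (g0 - em * b) ^ 2 + g0 * (g0 - e * b)
        + g0 * (g0 - em * b) + (g0 - e * b) * (g0 - em * b))
      + A5 * (g0 ^ 3 + (g0 - e * b) ^ 3 + (g0 - em * b) ^ 3 + g0 ^ 2 * (g0 - e * b)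
        + g0 ^ 2 * (g0 - em * b) + (g0 - e * b) ^ 2 * g0 + (g0 - e * b) ^ 2 * (g0 - em * b)
        + (g0 - em * b) ^ 2 * g0 + (g0 - em * b) ^ 2 * (g0 - e * b)
        + g0 * (g0 - e * b) * (g0 - em * b)))
      + (-(b * l) - 2 * b * g0 * k + b ^ 2 * (e + em) * k)) := by
  unfold pq
  ring

theorem Phi_pq (C : Cf ℝ) (e a x y z g : ℝ) :
    Phi C e a x y z g = pq
      (C.del * x * C.g2h * x ^ 2 + C.cc * y * C.g2h * x ^ 2
        + z * (2 * C.g2h * x * (C.A * x + C.cc * y)) + C.H * z ^ 2 + C.R4.ev x y + C.R5.ev x y)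
      (-(C.del * x + C.cc * y) + z * (C.h0 + C.hx.ev x y) + a * C.la.ev x y
        + (C.g1.ev x y + C.g1c.ev x y + C.g1f.ev x y))
      (C.g2k + C.g2l.ev x y + C.g2q.ev x y + C.g2c.ev x y + z * C.h3 + C.ca * a)
      (C.g3k + C.g3l.ev x y + C.g3q.ev x y) (C.g4k + C.g4l.ev x y) C.g5k
      (C.eq.ev x y) (C.el.ev x y) C.ek e g := by
  unfold Phi pq
  ring

theorem Phi_md (C : Cf ℝ) (em a x y z g : ℝ) :
    Phi (C.md em) 1 a x y z g
      = Phi C em a x y z g - em ^ 2 * (2 * z ^ 2 + 11 / 10 * (x ^ 2 + y ^ 2)) := by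
  unfold Phi Cf.md
  simp only [H1.ev, H2.ev]
  ring

theorem eint : EintStmt := by
  intro C e em a x y z g0 b he hem hbr hlin
  have hem0 : 0 < em := lt_of_lt_of_le he hem
  rw [Phi_md]
  have key := pq_key
    (C.del * x * C.g2h * x ^ 2 + C.cc * y * C.g2h * x ^ 2
      + z * (2 * C.g2h * x * (C.A * x + C.cc * y)) + C.H * z ^ 2 + C.R4.ev x y + C.R5.ev x y)
    (-(C.del * x + C.cc * y) + z * (C.h0 + C.hx.ev x y) + a * C.la.ev x y
      + (C.g1.ev x y + C.g1c.ev x y + C.g1f.ev x y))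
    (C.g2k + C.g2l.ev x y + C.g2q.ev x y + C.g2c.ev x y + z * C.h3 + C.ca * a)
    (C.g3k + C.g3l.ev x y + C.g3q.ev x y) (C.g4k + C.g4l.ev x y) C.g5k
    (C.eq.ev x y) (C.el.ev x y) C.ek e em g0 b
  rw [← Phi_pq C e a x y z, ← Phi_pq C 0 a x y z, ← Phi_pq C em a x y z] at key
  obtain ⟨D, hD⟩ : ∃ D : ℝ, D = b ^ 2 * Br C a x y z g0 (g0 - e * b) (g0 - em * b)
      + (-(b * C.el.ev x y) - 2 * b * g0 * C.ek + b ^ 2 * (e + em) * C.ek) := ⟨_, rfl⟩
  have key2 : em * Phi C e a x y z (g0 - e * b) - (em - e) * Phi C 0 a x y z g0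
      - e * Phi C em a x y z (g0 - em * b) = e * (e - em) * em * D := by
    rw [hD]
    unfold Br
    exact key
  obtain ⟨K, hK⟩ : ∃ K : ℝ, K = 2 * z ^ 2 + 11 / 10 * (x ^ 2 + y ^ 2) := ⟨_, rfl⟩
  rw [← hK] at hlin ⊢
  have hK0 : 0 ≤ K := by rw [hK]; positivity
  have hDK : D ≤ K := by rw [hD]; linarith
  have h1 : 0 ≤ e * em * (em * K - (em - e) * D) := by
    have h2 : (em - e) * D ≤ (em - e) * K := mul_le_mul_of_nonneg_left hDK (by linarith)
    have h3 : (em - e) * K ≤ em * K := mul_le_mul_of_nonneg_right (by linarith) hK0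
    exact mul_nonneg (mul_nonneg he.le hem0.le) (by linarith)
  have h4 : (1 - e / em) * Phi C 0 a x y z g0
      + e / em * (Phi C em a x y z (g0 - em * b) - em ^ 2 * K)
      = ((em - e) * Phi C 0 a x y z g0 + e * Phi C em a x y z (g0 - em * b) - e * em ^ 2 * K)
        / em := by
    field_simp
    ring
  rw [h4, div_le_iff₀ hem0]
  nlinarith

end Pool.Agent.Helper31.DL
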