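import Pool.Agent.Helper30.DL.GoalsB

/-!
# Packet IPL: `ip` is the scaled sum over `j`
-/

set_option autoImplicit false

open Complex (I)
open Finset

namespace Pool.Agent.Helper31.DL

open Pool.Agent.Helper30.DL

theorem ex_add (t : ℝ) (m n : ℤ) : ex t (m + n) = ex t m * ex t n := by
  unfold ex
  rw [← Complex.exp_add]
  congr 1
  push_cast
  ring

theorem ex_conj (t : ℝ) (n : ℤ) : (starRingEnd ℂ) (ex t n) = ex t (-n) := by
  unfold ex
  rw [← Complex.exp_conj]
  congr 1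
  rw [map_mul, Complex.conj_I, Complex.conj_ofReal]
  push_cast
  ring

theorem re_mul_re (a b : ℂ) : a.re * b.re = ((a * b).re + (a * (starRingEnd ℂ) b).re) / 2 := by
  simp only [Complex.mul_re, Complex.conj_re, Complex.conj_im]
  ring

theorem tip_eq {k : ℕ} {t : ℝ} (hG : ∀ f : ℕ, f ≤ 2 → ∀ m : ℤ, -4 ≤ m → m ≤ 4 →
        Gg t f m = (th t : ℂ) * ∑ j ∈ range k, ((th t * ((k : ℝ) - 1 - j) : ℝ) : ℂ) ^ f
          * ex t (2 * (m * (j : ℤ)))) (x y : Tm)
    (hx : x.f ≤ 1 ∧ -2 ≤ x.m ∧ x.m ≤ 2) (hy : y.f ≤ 1 ∧ -2 ≤ y.m ∧ y.m ≤ 2) :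
    tip t x y = th t * ∑ j ∈ range k, Bf k t x j * Bf k t y j := by
  have key : ∀ (c : ℂ) (f : ℕ) (m : ℤ), f ≤ 2 → -4 ≤ m → m ≤ 4 →
      (c * Gg t f m).re = th t * ∑ j ∈ range k, (th t * ((k : ℝ) - 1 - j)) ^ f
        * (c * ex t (2 * (m * (j : ℤ)))).re := by
    intro c f m hf h1 h2
    rw [hG f hf m h1 h2]
    have e : c * ((th t : ℂ) * ∑ j ∈ range k, ((th t * ((k : ℝ) - 1 - j) : ℝ) : ℂ) ^ f
          * ex t (2 * (m * (j : ℤ))))
        = ((th t : ℝ) : ℂ) * ∑ j ∈ range k, (((th t * ((k : ℝ) - 1 - j)) ^ f : ℝ) : ℂ)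
          * (c * ex t (2 * (m * (j : ℤ)))) := by
      rw [mul_left_comm, Finset.mul_sum]
      congr 1
      apply Finset.sum_congr rfl
      intro j _
      push_cast
      ring
    rw [e, Complex.re_ofReal_mul, Complex.re_sum]
    congr 1
    apply Finset.sum_congr rfl
    intro j _
    rw [Complex.re_ofReal_mul]
  unfold tip
  rw [key _ _ _ (by omega) (by omega) (by omega), key _ _ _ (by omega) (by omega) (by omega),
    ← mul_add, ← Finset.sum_add_distrib, mul_div_assoc, Finset.sum_div]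
  congr 1
  apply Finset.sum_congr rfl
  intro j _
  unfold Bf
  have e1 : x.c * y.c * ex t (2 * ((x.m + y.m) * (j : ℤ)))
      = (x.c * ex t (2 * (x.m * (j : ℤ)))) * (y.c * ex t (2 * (y.m * (j : ℤ)))) := by
    have : 2 * ((x.m + y.m) * (j : ℤ)) = 2 * (x.m * (j : ℤ)) + 2 * (y.m * (j : ℤ)) := by ring
    rw [this, ex_add]
    ring
  have e2 : x.c * (starRingEnd ℂ) y.c * ex t (2 * ((x.m - y.m) * (j : ℤ)))
      = (x.c * ex t (2 * (x.m * (j : ℤ)))) * (starRingEnd ℂ) (y.c * ex t (2 * (y.m * (j : ℤ)))) := by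
    have : 2 * ((x.m - y.m) * (j : ℤ)) = 2 * (x.m * (j : ℤ)) + -(2 * (y.m * (j : ℤ))) := by ring
    rw [this, ex_add, map_mul, ex_conj]
    ring
  rw [e1, e2]
  have h := re_mul_re (x.c * ex t (2 * (x.m * (j : ℤ)))) (y.c * ex t (2 * (y.m * (j : ℤ))))
  have e3 : (th t * ((k : ℝ) - 1 - j)) ^ x.f * (x.c * ex t (2 * (x.m * (j : ℤ)))).re
      * ((th t * ((k : ℝ) - 1 - j)) ^ y.f * (y.c * ex t (2 * (y.m * (j : ℤ)))).re)
      = (th t * ((k : ℝ) - 1 - j)) ^ (x.f + y.f)
        * ((x.c * ex t (2 * (x.m * (j : ℤ)))).re * (y.c * ex t (2 * (y.m * (j : ℤ)))).re) := by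
    rw [pow_add]
    ring
  rw [e3, h]
  ring

theorem ipl (hC : CstStmt) : IplStmt := by
  intro k hk t ht B B' hB hB'
  have hG := (hC k hk t ht).2.2.2.2.2.2.2.2.2.2.2.2.2.2.2.2.2.2.2.2.2.2.2.2.2
  have h1 : ∀ x ∈ B, (B'.map fun y => tip t x y).sum
      = th t * ∑ j ∈ range k, Bf k t x j * Bl k t B' j := by
    intro x hx
    have hx' := hB x hx
    clear hx
    induction B' with
    | nil => simp [Bl]
    | cons y B' ih =>
      rw [List.map_cons, List.sum_cons, ih (fun z hz => hB' z (List.mem_cons_of_mem _ hz)),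
        tip_eq hG x y hx' (hB' y List.mem_cons_self), ← mul_add, ← Finset.sum_add_distrib]
      congr 1
      apply Finset.sum_congr rfl
      intro j _
      unfold Bl
      rw [List.map_cons, List.sum_cons]
      ring
  unfold ip SS
  clear hB
  induction B with
  | nil => simp [Bl]
  | cons x B ih =>
    rw [List.map_cons, List.sum_cons, ih (fun z hz => h1 z (List.mem_cons_of_mem _ hz)),
      h1 x List.mem_cons_self, ← mul_add, ← Finset.sum_add_distrib]
    congr 1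
    apply Finset.sum_congr rfl
    intro j _
    have e : Bl k t (x :: B) j = Bf k t x j + Bl k t B j := by
      unfold Bl
      rw [List.map_cons, List.sum_cons]
    rw [e]
    ring

end Pool.Agent.Helper31.DL
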