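import Pool.Agent.Helper30.DL.GoalsC

/-!
MP_b4564f_an, packet TRIG (project DL of helper30): enclosures of `cos t` and `sin t / t`.
-/

set_option autoImplicit false

namespace Pool.Agent.Helper31.DL

open Pool.Agent.Helper30.DL

theorem exp_re_im (t : ℝ) : (Complex.exp ((t : ℂ) * Complex.I)) = (Real.cos t : ℂ) + (Real.sin t : ℂ) * Complex.I := by
  rw [Complex.exp_mul_I, Complex.ofReal_cos, Complex.ofReal_sin]

theorem cos_taylor {t : ℝ} (h0 : 0 < t) (h1 : t ≤ 449 / 2000) :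
    |Real.cos t - (1 - t ^ 2 / 2 + t ^ 4 / 24 - t ^ 6 / 720 + t ^ 8 / 40320)|
      ≤ 1 / 10000000000 := by
  have hn : ‖(t : ℂ) * Complex.I‖ = t := by
    simp [abs_of_pos h0]
  have hb := Complex.exp_bound (x := (t : ℂ) * Complex.I) (by rw [hn]; linarith) (n := 10)
    (by norm_num)
  rw [hn] at hb
  have hre : (Complex.exp ((t : ℂ) * Complex.I) - ∑ m ∈ Finset.range 10,
      ((t : ℂ) * Complex.I) ^ m / (m.factorial : ℂ)).re
      = Real.cos t - (1 - t ^ 2 / 2 + t ^ 4 / 24 - t ^ 6 / 720 + t ^ 8 / 40320) := by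
    have hs : (∑ m ∈ Finset.range 10, ((t : ℂ) * Complex.I) ^ m / (m.factorial : ℂ))
        = ((1 - t ^ 2 / 2 + t ^ 4 / 24 - t ^ 6 / 720 + t ^ 8 / 40320 : ℝ) : ℂ)
          + ((t - t ^ 3 / 6 + t ^ 5 / 120 - t ^ 7 / 5040 + t ^ 9 / 362880 : ℝ) : ℂ)
            * Complex.I := by
      have e2 : Complex.I ^ 2 = -1 := Complex.I_sq
      have e3 : Complex.I ^ 3 = -Complex.I := Complex.I_pow_three
      have e4 : Complex.I ^ 4 = 1 := Complex.I_pow_four
      have e5 : Complex.I ^ 5 = Complex.I := by rw [pow_succ, e4]; ring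
      have e6 : Complex.I ^ 6 = -1 := by rw [pow_succ, e5, ← sq, e2]
      have e7 : Complex.I ^ 7 = -Complex.I := by rw [pow_succ, e6]; ring
      have e8 : Complex.I ^ 8 = 1 := by rw [pow_succ, e7]; simp
      have e9 : Complex.I ^ 9 = Complex.I := by rw [pow_succ, e8]; ring
      simp only [Finset.sum_range_succ, Finset.sum_range_zero, mul_pow, e2, e3, e4, e5, e6, e7, e8,
        e9, Nat.factorial]
      push_cast
      ring
    rw [hs, exp_re_im]
    simp only [Complex.sub_re, Complex.add_re, Complex.mul_re, Complex.ofReal_re,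
      Complex.ofReal_im, Complex.I_re, Complex.I_im]
    ring
  have h2 := (Complex.abs_re_le_norm _).trans hb
  rw [hre] at h2
  refine h2.trans ?_
  have h3 : t ^ 10 ≤ (449 / 2000) ^ 10 := pow_le_pow_left₀ h0.le h1 10
  have h4 : ((Nat.succ 10 : ℕ) : ℝ) * ((Nat.factorial 10 : ℝ) * ((10 : ℕ) : ℝ))⁻¹ = 11 / 36288000 := by
    simp only [Nat.factorial]
    push_cast
    norm_num
  rw [h4]
  have h5 : ((449 : ℝ) / 2000) ^ 10 * (11 / 36288000) ≤ 1 / 10000000000 := by norm_num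
  nlinarith

theorem sin_taylor {t : ℝ} (h0 : 0 < t) (h1 : t ≤ 449 / 2000) :
    |Real.sin t / t - (1 - t ^ 2 / 6 + t ^ 4 / 120 - t ^ 6 / 5040 + t ^ 8 / 362880)|
      ≤ 1 / 10000000000 := by
  have hn : ‖(t : ℂ) * Complex.I‖ = t := by
    simp [abs_of_pos h0]
  have hb := Complex.exp_bound (x := (t : ℂ) * Complex.I) (by rw [hn]; linarith) (n := 11)
    (by norm_num)
  rw [hn] at hb
  have hre : (Complex.exp ((t : ℂ) * Complex.I) - ∑ m ∈ Finset.range 11,
      ((t : ℂ) * Complex.I) ^ m / (m.factorial : ℂ)).im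
      = Real.sin t - (t - t ^ 3 / 6 + t ^ 5 / 120 - t ^ 7 / 5040 + t ^ 9 / 362880) := by
    have hs : (∑ m ∈ Finset.range 11, ((t : ℂ) * Complex.I) ^ m / (m.factorial : ℂ))
        = ((1 - t ^ 2 / 2 + t ^ 4 / 24 - t ^ 6 / 720 + t ^ 8 / 40320 - t ^ 10 / 3628800 : ℝ) : ℂ)
          + ((t - t ^ 3 / 6 + t ^ 5 / 120 - t ^ 7 / 5040 + t ^ 9 / 362880 : ℝ) : ℂ)
            * Complex.I := by
      have e2 : Complex.I ^ 2 = -1 := Complex.I_sq
      have e3 : Complex.I ^ 3 = -Complex.I := Complex.I_pow_three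
      have e4 : Complex.I ^ 4 = 1 := Complex.I_pow_four
      have e5 : Complex.I ^ 5 = Complex.I := by rw [pow_succ, e4]; ring
      have e6 : Complex.I ^ 6 = -1 := by rw [pow_succ, e5, ← sq, e2]
      have e7 : Complex.I ^ 7 = -Complex.I := by rw [pow_succ, e6]; ring
      have e8 : Complex.I ^ 8 = 1 := by rw [pow_succ, e7]; simp
      have e9 : Complex.I ^ 9 = Complex.I := by rw [pow_succ, e8]; ring
      have e10 : Complex.I ^ 10 = -1 := by rw [pow_succ, e9, ← sq, e2]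
      simp only [Finset.sum_range_succ, Finset.sum_range_zero, mul_pow, e2, e3, e4, e5, e6, e7, e8,
        e9, e10, Nat.factorial]
      push_cast
      ring
    rw [hs, exp_re_im]
    simp only [Complex.sub_im, Complex.add_im, Complex.mul_im, Complex.ofReal_re,
      Complex.ofReal_im, Complex.I_re, Complex.I_im]
    ring
  have h2 := (Complex.abs_im_le_norm _).trans hb
  rw [hre] at h2
  have e1 : Real.sin t / t - (1 - t ^ 2 / 6 + t ^ 4 / 120 - t ^ 6 / 5040 + t ^ 8 / 362880)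
      = (Real.sin t - (t - t ^ 3 / 6 + t ^ 5 / 120 - t ^ 7 / 5040 + t ^ 9 / 362880)) / t := by
    field_simp
  rw [e1, abs_div, abs_of_pos h0, div_le_iff₀ h0]
  refine h2.trans ?_
  have h3 : t ^ 10 ≤ (449 / 2000) ^ 10 := pow_le_pow_left₀ h0.le h1 10
  have h4 : ((Nat.succ 11 : ℕ) : ℝ) * ((Nat.factorial 11 : ℝ) * ((11 : ℕ) : ℝ))⁻¹
      = 12 / 439084800 := by
    simp only [Nat.factorial]
    push_cast
    norm_num
  rw [h4]
  have h5 : ((449 : ℝ) / 2000) ^ 10 * (12 / 439084800) ≤ 1 / 10000000000 := by norm_num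
  have h6 : t ^ 10 * (12 / 439084800) ≤ 1 / 10000000000 := by nlinarith
  calc t ^ 11 * (12 / 439084800) = t * (t ^ 10 * (12 / 439084800)) := by ring
    _ ≤ t * (1 / 10000000000) := mul_le_mul_of_nonneg_left h6 h0.le
    _ = 1 / 10000000000 * t := by ring

theorem cst_enc (x y z : ℝ) (p n r : ℕ) (v : ℝ) (h : |10000000000 * v - ((p : ℝ) - n)| ≤ r) :
    (AF.cst p n r).Enc x y z v := by
  unfold AF.Enc AF.cst
  simpa using h

theorem one_enc (x y z : ℝ) : AF.one.Enc x y z 1 := by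
  unfold AF.Enc AF.one
  simp

theorem trig (hA : AfsStmt) : TrigStmt := by
  intro x y z hx hy hz u t h0 h1 hu
  have hmul : ∀ {A B : AF} {v w : ℝ}, A.Enc x y z v → B.Enc x y z w → (A * B).Enc x y z (v * w) :=
    fun h h' => (hA x y z hx hy hz _ _ _ _ h h').2.2.1
  have hsub : ∀ {A B : AF} {v w : ℝ}, A.Enc x y z v → B.Enc x y z w → (A - B).Enc x y z (v - w) :=
    fun h h' => (hA x y z hx hy hz _ _ _ _ h h').2.1
  have haddr : ∀ {A : AF} {v : ℝ}, A.Enc x y z v → ∀ (r : ℕ) (d : ℝ),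
      |d| ≤ (r : ℝ) / 10000000000 → (A.addr r).Enc x y z (v + d) :=
    fun h => (hA x y z hx hy hz _ _ _ _ h h).2.2.2.2.2.1
  have hone := one_enc x y z
  have hh : hlf.Enc x y z (1 / 2) := cst_enc x y z _ _ _ _ (by norm_num)
  constructor
  · have a12 : (AF.cst 833333333 0 1).Enc x y z (1 / 12) :=
      cst_enc x y z _ _ _ _ (by norm_num [abs_le])
    have a30 : (AF.cst 333333333 0 1).Enc x y z (1 / 30) :=
      cst_enc x y z _ _ _ _ (by norm_num [abs_le])
    have a56 : (AF.cst 178571429 0 1).Enc x y z (1 / 56) :=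
      cst_enc x y z _ _ _ _ (by norm_num [abs_le])
    have h2 := hsub hone (hmul (hmul hu hh) (hsub hone (hmul (hmul hu a12)
      (hsub hone (hmul (hmul hu a30) (hsub hone (hmul hu a56)))))))
    have h3 := haddr h2 1 (Real.cos t
      - (1 - t ^ 2 / 2 + t ^ 4 / 24 - t ^ 6 / 720 + t ^ 8 / 40320)) (by
        simpa using cos_taylor h0 h1)
    have e : 1 - t ^ 2 * (1 / 2) * (1 - t ^ 2 * (1 / 12) * (1 - t ^ 2 * (1 / 30)
        * (1 - t ^ 2 * (1 / 56)))) + (Real.cos t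
      - (1 - t ^ 2 / 2 + t ^ 4 / 24 - t ^ 6 / 720 + t ^ 8 / 40320)) = Real.cos t := by
      ring
    rw [e] at h3
    exact h3
  · have a6 : (AF.cst 1666666667 0 1).Enc x y z (1 / 6) :=
      cst_enc x y z _ _ _ _ (by norm_num [abs_le])
    have a20 : (AF.cst 500000000 0 0).Enc x y z (1 / 20) :=
      cst_enc x y z _ _ _ _ (by norm_num [abs_le])
    have a42 : (AF.cst 238095238 0 1).Enc x y z (1 / 42) :=
      cst_enc x y z _ _ _ _ (by norm_num [abs_le])
    have a72 : (AF.cst 138888889 0 1).Enc x y z (1 / 72) :=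
      cst_enc x y z _ _ _ _ (by norm_num [abs_le])
    have h2 := hsub hone (hmul (hmul hu a6) (hsub hone (hmul (hmul hu a20)
      (hsub hone (hmul (hmul hu a42) (hsub hone (hmul hu a72)))))))
    have h3 := haddr h2 1 (Real.sin t / t
      - (1 - t ^ 2 / 6 + t ^ 4 / 120 - t ^ 6 / 5040 + t ^ 8 / 362880)) (by
        simpa using sin_taylor h0 h1)
    have e : 1 - t ^ 2 * (1 / 6) * (1 - t ^ 2 * (1 / 20) * (1 - t ^ 2 * (1 / 42)
        * (1 - t ^ 2 * (1 / 72)))) + (Real.sin t / t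
      - (1 - t ^ 2 / 6 + t ^ 4 / 120 - t ^ 6 / 5040 + t ^ 8 / 362880)) = Real.sin t / t := by
      ring
    rw [e] at h3
    exact h3

end Pool.Agent.Helper31.DL
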