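import Pool.Agent.Helper30.DL.GoalsA

/-!
# Packet BOXINF: the box for the delays `k ≥ 121`
-/

set_option autoImplicit false

open Filter Topology Finset

namespace Pool.Agent.Helper31.DL

open Pool.Agent.Helper30.DL

/-- truncated exponential series -/
noncomputable def T10 (x : ℝ) : ℝ := 1 + x + x ^ 2 / 2 + x ^ 3 / 6 + x ^ 4 / 24 + x ^ 5 / 120 +
  x ^ 6 / 720 + x ^ 7 / 5040 + x ^ 8 / 40320 + x ^ 9 / 362880

theorem exp_lo {x : ℝ} (h : 0 ≤ x) : T10 x ≤ Real.exp x := by
  have h2 := Real.sum_le_exp_of_nonneg h 10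
  simp only [Finset.sum_range_succ, Finset.sum_range_zero, Nat.factorial] at h2
  unfold T10
  norm_num at h2
  linarith

theorem exp_hi {x : ℝ} (h0 : 0 ≤ x) (h1 : x ≤ 1) : Real.exp x ≤ T10 x + 1 / 3000000 := by
  have h2 := Real.exp_bound' h0 h1 (n := 10) (by norm_num)
  simp only [Finset.sum_range_succ, Finset.sum_range_zero, Nat.factorial] at h2
  have h10 : x ^ 10 ≤ 1 := pow_le_one₀ h0 h1
  unfold T10
  norm_num at h2
  linarith

theorem T10_one_le {x : ℝ} (h : 0 ≤ x) : 1 ≤ T10 x := by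
  unfold T10
  have : 0 ≤ x + x ^ 2 / 2 + x ^ 3 / 6 + x ^ 4 / 24 + x ^ 5 / 120 +
    x ^ 6 / 720 + x ^ 7 / 5040 + x ^ 8 / 40320 + x ^ 9 / 362880 := by positivity
  linarith

theorem exp_half (m : ℝ) : Real.exp (m / 2) ^ 2 = Real.exp m := by
  rw [← Real.exp_nat_mul]
  congr 1
  push_cast
  ring

theorem nexp_hi {m e : ℝ} (h0 : 0 ≤ m) (he : 1 ≤ e * T10 (m / 2) ^ 2) : Real.exp (-m) ≤ e := by
  have h := exp_lo (x := m / 2) (by linarith)
  have hT := T10_one_le (x := m / 2) (by linarith)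
  have h2 : T10 (m / 2) ^ 2 ≤ Real.exp m := by
    rw [← exp_half m]
    exact pow_le_pow_left₀ (by linarith) h 2
  have he0 : 0 ≤ e := by
    by_contra hne
    push Not at hne
    nlinarith [sq_nonneg (T10 (m / 2))]
  have h3 : 1 ≤ e * Real.exp m := he.trans (mul_le_mul_of_nonneg_left h2 he0)
  have h4 : Real.exp (-m) * Real.exp m = 1 := by rw [← Real.exp_add]; simp
  have h5 : Real.exp (-m) * Real.exp m ≤ e * Real.exp m := by rw [h4]; exact h3
  exact le_of_mul_le_mul_right h5 (Real.exp_pos m)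

theorem nexp_lo {m e : ℝ} (h0 : 0 ≤ m) (h2 : m ≤ 2) (he0 : 0 ≤ e)
    (he : e * (T10 (m / 2) + 1 / 3000000) ^ 2 ≤ 1) : e ≤ Real.exp (-m) := by
  have h := exp_hi (x := m / 2) (by linarith) (by linarith)
  have h3 : Real.exp m ≤ (T10 (m / 2) + 1 / 3000000) ^ 2 := by
    rw [← exp_half m]
    exact pow_le_pow_left₀ (Real.exp_pos _).le h 2
  have h4 : e * Real.exp m ≤ 1 := (mul_le_mul_of_nonneg_left h3 he0).trans he
  have h5 : Real.exp (-m) * Real.exp m = 1 := by rw [← Real.exp_add]; simp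
  have h6 : e * Real.exp m ≤ Real.exp (-m) * Real.exp m := by rw [h5]; exact h4
  exact le_of_mul_le_mul_right h6 (Real.exp_pos m)

theorem neg_log_le {x : ℝ} (h0 : 0 ≤ x) (h1 : x ≤ 13 / 1000) :
    -Real.log (1 - x) ≤ x * (1 + x / 2 + 1 / 10000) := by
  have h := Real.abs_log_sub_add_sum_range_le (x := x) (by rw [abs_of_nonneg h0]; linarith) 3
  rw [abs_of_nonneg h0] at h
  have h2 := (abs_le.1 h).1
  simp only [Finset.sum_range_succ, Finset.sum_range_zero] at h2
  norm_num at h2
  have h3 : x ^ 4 / (1 - x) ≤ x * (1 / 100000) := by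
    rw [div_le_iff₀ (by linarith)]
    have hx3 : x ^ 3 ≤ (13 / 1000) ^ 3 := pow_le_pow_left₀ h0 h1 3
    have : x ^ 4 = x * x ^ 3 := by ring
    rw [this, mul_assoc]
    apply mul_le_mul_of_nonneg_left _ h0
    nlinarith
  have h4 : x ^ 3 / 3 ≤ x * (6 / 100000) := by
    have hx2 : x ^ 2 ≤ (13 / 1000) ^ 2 := pow_le_pow_left₀ h0 h1 2
    have : x ^ 3 / 3 = x * (x ^ 2 / 3) := by ring
    rw [this]
    apply mul_le_mul_of_nonneg_left _ h0
    nlinarith
  nlinarith

/-- the bound for `(k + 1/2) F` -/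
noncomputable def cc (u : ℝ) : ℝ := 15708 / 10000 * (u * (1 + 65 / 10000 * u + 1 / 10000))

theorem cc_mono {u v : ℝ} (hu : 0 ≤ u) (huv : u ≤ v) : cc u ≤ cc v := by
  unfold cc
  apply mul_le_mul_of_nonneg_left _ (by norm_num)
  apply mul_le_mul huv (by linarith) (by positivity) (by linarith)

theorem F_le {k : ℕ} {p u : ℝ} (hp0 : 0 < p) (hpP : p ≤ 1293 / 100000)
    (hq : ((k : ℝ) + 1 / 2) * p ≤ 15708 / 10000) (hu0 : 0 ≤ u) (hu1 : u ≤ 1) :
    ((k : ℝ) + 1 / 2) * (-Real.log (1 - p * u)) ≤ cc u := by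
  have hpu0 : 0 ≤ p * u := by positivity
  have hpu : p * u ≤ p := by nlinarith
  have h := neg_log_le (x := p * u) hpu0 (by linarith)
  have h2 : ((k : ℝ) + 1 / 2) * (-Real.log (1 - p * u))
      ≤ ((k : ℝ) + 1 / 2) * (p * u * (1 + p * u / 2 + 1 / 10000)) :=
    mul_le_mul_of_nonneg_left h (by positivity)
  refine h2.trans ?_
  have h3 : ((k : ℝ) + 1 / 2) * (p * u * (1 + p * u / 2 + 1 / 10000))
      = (((k : ℝ) + 1 / 2) * p) * (u * (1 + p * u / 2 + 1 / 10000)) := by ring
  rw [h3]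
  unfold cc
  have h4 : p * u / 2 ≤ 65 / 10000 * u := by nlinarith
  apply mul_le_mul hq _ (by positivity) (by norm_num)
  apply mul_le_mul_of_nonneg_left _ hu0
  linarith

theorem F_nonneg {p u : ℝ} (hp0 : 0 < p) (hpP : p ≤ 1293 / 100000) (hu0 : 0 ≤ u) (hu1 : u ≤ 1) :
    0 ≤ -Real.log (1 - p * u) := by
  have hpu0 : 0 ≤ p * u := by positivity
  have hpu : p * u ≤ p := by nlinarith
  have := Real.log_nonpos (x := 1 - p * u) (by linarith) (by linarith)
  linarith

theorem sub_exp_mono {x y : ℝ} (hx : 0 ≤ x) (hxy : x ≤ y) :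
    x - 1 + Real.exp (-x) ≤ y - 1 + Real.exp (-y) := by
  have h1 : Real.exp (-y) = Real.exp (-x) * Real.exp (-(y - x)) := by
    rw [← Real.exp_add]; congr 1; ring
  have h2 : 1 - (y - x) ≤ Real.exp (-(y - x)) := by
    have := Real.add_one_le_exp (-(y - x)); linarith
  have h3 : Real.exp (-x) ≤ 1 := Real.exp_le_one_iff.2 (by linarith)
  have h4 := Real.exp_pos (-x)
  rw [h1]
  nlinarith

theorem upStep (hU : UInfStmt) {k : ℕ} {p : ℝ} {X : ℕ → ℝ} (hp0 : 0 < p)
    (hpP : p ≤ 1293 / 100000) (hq : ((k : ℝ) + 1 / 2) * p ≤ 15708 / 10000) (hX : SolX k p X)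
    {m U e0 e1 x1 f1 : ℝ} (hm : 0 < m) (hm2 : m ≤ 2)
    (he0 : e0 * (T10 (m / 2) + 1 / 3000000) ^ 2 ≤ 1) (he1 : 1 ≤ e1 * T10 (m / 2) ^ 2)
    (he0' : 0 ≤ e0) (he1' : e1 < 1) (hx1 : 0 ≤ x1) (hx : m ≤ x1 ∨ cc (1 - e0) ≤ x1)
    (hf1 : 1 ≤ f1 * T10 (x1 / 2) ^ 2)
    (hc1 : cc (1 - e0) < m ∨
      cc (1 - e0) - 1 - m + m / (1 - e1) + (1293 / 100000) ^ 2 ≤ U)
    (hc2 : (x1 - 1 + f1) / (1 - e1) + 11 / 10 * (1293 / 100000) ≤ U) (hU0 : 0 ≤ U)
    (h : ∀ᶠ n in atTop, -m ≤ Real.log (X n)) :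
    Tendsto X atTop (𝓝 1) ∨ ∀ᶠ n in atTop, Real.log (X n) ≤ U := by
  have hlo := nexp_lo hm.le hm2 he0' he0
  have hhi := nexp_hi hm.le he1
  have hf := nexp_hi hx1 hf1
  have hu0 : 1 - e1 ≤ 1 - Real.exp (-m) := by linarith
  have hu1 : 1 - Real.exp (-m) ≤ 1 - e0 := by linarith
  have hupos : 0 < 1 - e1 := by linarith
  have hu01 : 0 ≤ 1 - Real.exp (-m) := by linarith
  have hule : 1 - Real.exp (-m) ≤ 1 := by have := Real.exp_pos (-m); linarith
  have hF := (F_le (k := k) hp0 hpP hq hu01 hule).trans (cc_mono hu01 hu1)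
  have hFn := F_nonneg hp0 hpP hu01 hule
  refine hU k p X hp0 (by linarith) hX m U hm ?_ ?_ h hU0
  · intro hk
    have hkF : (k : ℝ) * (-Real.log (1 - p * (1 - Real.exp (-m)))) ≤ cc (1 - e0) := by
      refine le_trans ?_ hF
      exact mul_le_mul_of_nonneg_right (by linarith) hFn
    rcases hc1 with hc1 | hc1
    · exact absurd (hk.trans hkF) (not_le.2 hc1)
    · have h1 : m / (1 - Real.exp (-m)) ≤ m / (1 - e1) :=
        div_le_div_of_nonneg_left hm.le hupos hu0
      have h2 : p ^ 2 ≤ (1293 / 100000 : ℝ) ^ 2 := pow_le_pow_left₀ hp0.le hpP 2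
      linarith
  · intro hk
    set x := (k : ℝ) * (-Real.log (1 - p * (1 - Real.exp (-m)))) with hxdef
    have hx0 : 0 ≤ x := by positivity
    have hkF : x ≤ cc (1 - e0) := by
      refine le_trans ?_ hF
      rw [hxdef]
      exact mul_le_mul_of_nonneg_right (by linarith) hFn
    have hxx : x ≤ x1 := by
      rcases hx with hx | hx <;> linarith
    have h1 := sub_exp_mono hx0 hxx
    have h0 := sub_exp_mono le_rfl hx1
    rw [neg_zero, Real.exp_zero] at h0
    have h2 : (x - 1 + Real.exp (-x)) / (1 - Real.exp (-m))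
        ≤ (x1 - 1 + f1) / (1 - e1) := by
      apply div_le_div₀ (by linarith) (by linarith) hupos hu0
    linarith

theorem dnStep (hD : DInfStmt) {k : ℕ} {p : ℝ} {X : ℕ → ℝ} (hp0 : 0 < p)
    (hpP : p ≤ 1293 / 100000) (hq : ((k : ℝ) + 1 / 2) * p ≤ 15708 / 10000)
    (hkp : 1 ≤ (k : ℝ) * p) (hX : SolX k p X) {M D E1 : ℝ} (hM0 : 0 < M) (hM1 : M ≤ 1)
    (hE : T10 M + 1 / 3000000 - 1 ≤ E1)
    (hc : 15708 / 10000 * E1 + 1 - M - M / E1 + 2 * (1293 / 100000) ^ 2 * E1 * (E1 + 1) ≤ D)
    (hD0 : 0 ≤ D) (h : ∀ᶠ n in atTop, Real.log (X n) ≤ M) :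
    Tendsto X atTop (𝓝 1) ∨ ∀ᶠ n in atTop, -D ≤ Real.log (X n) := by
  have hexp := exp_hi hM0.le hM1
  have hE' : Real.exp M - 1 ≤ E1 := by linarith
  have hEpos : 0 < Real.exp M - 1 := by
    have := Real.add_one_lt_exp hM0.ne'
    linarith
  refine hD k p X hp0 (by linarith) hkp hX M D hM0 (by linarith) ?_ hD0 h
  have h1 : ((k : ℝ) + 1 / 2) * (p * (Real.exp M - 1)) ≤ 15708 / 10000 * E1 := by
    rw [← mul_assoc]
    exact mul_le_mul hq hE' hEpos.le (by norm_num)
  have h2 : M / E1 ≤ M / (Real.exp M - 1) := div_le_div_of_nonneg_left hM0.le hEpos hE'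
  have hp2 : p ^ 2 ≤ (1293 / 100000 : ℝ) ^ 2 := pow_le_pow_left₀ hp0.le hpP 2
  have h3 : 2 * p ^ 2 * (Real.exp M - 1) * Real.exp M
      ≤ 2 * (1293 / 100000) ^ 2 * E1 * (E1 + 1) := by
    have a1 : 2 * p ^ 2 ≤ 2 * (1293 / 100000 : ℝ) ^ 2 := by linarith
    have a2 : 2 * p ^ 2 * (Real.exp M - 1) ≤ 2 * (1293 / 100000 : ℝ) ^ 2 * E1 :=
      mul_le_mul a1 hE' hEpos.le (by positivity)
    have hE1 : 0 ≤ E1 := hEpos.le.trans hE'
    exact mul_le_mul a2 (by linarith) (Real.exp_pos _).le (by positivity)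
  linarith

theorem boxInf (hU : UInfStmt) (hS : UStartStmt) (hD : DInfStmt) : BoxInfStmt := by
  intro k p X hk hp1 hp2 hX
  have hkR : (121 : ℝ) ≤ k := by exact_mod_cast hk
  have hpi1 := Real.pi_gt_d4
  have hpi2 := Real.pi_lt_d4
  have hden : (0 : ℝ) < 2 * (2 * k + 1) := by positivity
  set x0 : ℝ := Real.pi / (2 * (2 * k + 1)) with hx0
  have hx0pos : 0 < x0 := by rw [hx0]; positivity
  have hx0le : x0 ≤ 65 / 10000 := by
    rw [hx0, div_le_iff₀ hden]
    nlinarith
  have hpc : pc k = 2 * Real.sin x0 := rfl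
  have hpcu : pc k ≤ 2 * x0 := by
    rw [hpc]
    have := Real.sin_le hx0pos.le
    linarith
  have hpcl : 2 * (x0 - x0 ^ 3 / 4) ≤ pc k := by
    rw [hpc]
    have := Real.sin_gt_sub_cube hx0pos
    have h3 : 0 ≤ x0 ^ 3 := by positivity
    linarith
  have hx0k : x0 * ((k : ℝ) + 1 / 2) = Real.pi / 4 := by
    rw [hx0]
    field_simp
    ring
  have hcube : x0 ^ 3 / 4 ≤ x0 * (1 / 10000) := by
    have : x0 ^ 2 ≤ (65 / 10000) ^ 2 := pow_le_pow_left₀ hx0pos.le hx0le 2
    nlinarith
  have hp0 : 0 < p := by nlinarith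
  have hpP : p ≤ 1293 / 100000 := by
    have h1 : x0 ≤ 1293 / 200000 := by
      rw [hx0, div_le_iff₀ hden]
      nlinarith
    linarith
  have hq : ((k : ℝ) + 1 / 2) * p ≤ 15708 / 10000 := by
    have h1 : ((k : ℝ) + 1 / 2) * p ≤ ((k : ℝ) + 1 / 2) * (2 * x0) :=
      mul_le_mul_of_nonneg_left (by linarith) (by positivity)
    have h2 : ((k : ℝ) + 1 / 2) * (2 * x0) = 2 * (x0 * ((k : ℝ) + 1 / 2)) := by ring
    rw [h2, hx0k] at h1
    linarith
  have hkp : 1 ≤ (k : ℝ) * p := by
    have h1 : 8 / 5 * (9999 / 10000) * x0 ≤ p := by nlinarith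
    have h2 : ((k : ℝ) + 1 / 2) * (8 / 5 * (9999 / 10000) * x0) ≤ ((k : ℝ) + 1 / 2) * p :=
      mul_le_mul_of_nonneg_left h1 (by positivity)
    have h3 : ((k : ℝ) + 1 / 2) * (8 / 5 * (9999 / 10000) * x0)
        = 8 / 5 * (9999 / 10000) * (x0 * ((k : ℝ) + 1 / 2)) := by ring
    rw [h3, hx0k] at h2
    nlinarith
  have h : Tendsto X atTop (𝓝 1) ∨ ∀ᶠ n in atTop, Real.log (X n) ≤ 8015 / 10000 := by
    refine hS k p X hp0 (by linarith) hX (8015 / 10000) (by norm_num) ?_
    have hF := F_le (k := k) (u := 1) hp0 hpP hq (by norm_num) le_rfl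
    have hFn := F_nonneg (u := 1) hp0 hpP (by norm_num) le_rfl
    rw [mul_one] at hF hFn
    have hkF : (k : ℝ) * (-Real.log (1 - p)) ≤ 158118 / 100000 := by
      have h1 : (k : ℝ) * (-Real.log (1 - p)) ≤ ((k : ℝ) + 1 / 2) * (-Real.log (1 - p)) :=
        mul_le_mul_of_nonneg_right (by linarith) hFn
      have h2 : cc 1 ≤ 158118 / 100000 := by norm_num [cc]
      linarith
    have h1 := sub_exp_mono (mul_nonneg (Nat.cast_nonneg k) hFn) hkF
    have h2 : Real.exp (-(158118 / 100000)) ≤ 205740 / 1000000 :=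
      nexp_hi (by norm_num) (by norm_num [T10])
    linarith
  rcases h with h | h
  · exact Or.inl h
  rcases dnStep hD hp0 hpP hq hkp hX (M := 8015 / 10000) (D := 14780 / 10000) (E1 := 1228884 / 1000000)
    (by norm_num) (by norm_num) (by norm_num [T10]) (by norm_num) (by norm_num) h with h | h
  · exact Or.inl h
  rcases upStep hU hp0 hpP hq hX (m := 14780 / 10000) (U := 6810 / 10000) (e0 := 228091 / 1000000)
    (e1 := 228096 / 1000000) (x1 := 121873 / 100000) (f1 := 295608 / 1000000) (by norm_num) (by norm_num)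
    (by norm_num [T10]) (by norm_num [T10]) (by norm_num) (by norm_num) (by norm_num)
    (Or.inr (by norm_num [cc])) (by norm_num [T10]) (Or.inl (by norm_num [cc])) (by norm_num) (by norm_num) h with h | h
  · exact Or.inl h
  rcases dnStep hD hp0 hpP hq hkp hX (M := 6810 / 10000) (D := 11550 / 10000) (E1 := 975855 / 1000000)
    (by norm_num) (by norm_num) (by norm_num [T10]) (by norm_num) (by norm_num) h with h | h
  · exact Or.inl h
  rcases upStep hU hp0 hpP hq hX (m := 11550 / 10000) (U := 6280 / 10000) (e0 := 315055 / 1000000)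
    (e1 := 315060 / 1000000) (x1 := 108082 / 100000) (f1 := 339320 / 1000000) (by norm_num) (by norm_num)
    (by norm_num [T10]) (by norm_num [T10]) (by norm_num) (by norm_num) (by norm_num)
    (Or.inr (by norm_num [cc])) (by norm_num [T10]) (Or.inl (by norm_num [cc])) (by norm_num) (by norm_num) h with h | h
  · exact Or.inl h
  rcases dnStep hD hp0 hpP hq hkp hX (M := 6280 / 10000) (D := 10270 / 10000) (E1 := 873862 / 1000000)
    (by norm_num) (by norm_num) (by norm_num [T10]) (by norm_num) (by norm_num) h with h | h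
  · exact Or.inl h
  rcases upStep hU hp0 hpP hq hX (m := 10270 / 10000) (U := 6000 / 10000) (e0 := 358077 / 1000000)
    (e1 := 358082 / 1000000) (x1 := 101266 / 100000) (f1 := 363254 / 1000000) (by norm_num) (by norm_num)
    (by norm_num [T10]) (by norm_num [T10]) (by norm_num) (by norm_num) (by norm_num)
    (Or.inr (by norm_num [cc])) (by norm_num [T10]) (Or.inl (by norm_num [cc])) (by norm_num) (by norm_num) h with h | h
  · exact Or.inl h
  rcases dnStep hD hp0 hpP hq hkp hX (M := 6000 / 10000) (D := 9625 / 10000) (E1 := 822121 / 1000000)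
    (by norm_num) (by norm_num) (by norm_num [T10]) (by norm_num) (by norm_num) h with h | h
  · exact Or.inl h
  rcases upStep hU hp0 hpP hq hX (m := 9625 / 10000) (U := 5720 / 10000) (e0 := 381934 / 1000000)
    (e1 := 381939 / 1000000) (x1 := 9625 / 10000) (f1 := 381939 / 1000000) (by norm_num) (by norm_num)
    (by norm_num [T10]) (by norm_num [T10]) (by norm_num) (by norm_num) (by norm_num)
    (Or.inl (by norm_num)) (by norm_num [T10]) (Or.inr (by norm_num [cc])) (by norm_num) (by norm_num) h with h | h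
  · exact Or.inl h
  rcases dnStep hD hp0 hpP hq hkp hX (M := 5720 / 10000) (D := 9000 / 10000) (E1 := 771810 / 1000000)
    (by norm_num) (by norm_num) (by norm_num [T10]) (by norm_num) (by norm_num) h with h | h
  · exact Or.inl h
  rcases upStep hU hp0 hpP hq hX (m := 9000 / 10000) (U := 5530 / 10000) (e0 := 406567 / 1000000)
    (e1 := 406572 / 1000000) (x1 := 9000 / 10000) (f1 := 406572 / 1000000) (by norm_num) (by norm_num)
    (by norm_num [T10]) (by norm_num [T10]) (by norm_num) (by norm_num) (by norm_num)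
    (Or.inl (by norm_num)) (by norm_num [T10]) (Or.inr (by norm_num [cc])) (by norm_num) (by norm_num) h with h | h
  · exact Or.inl h
  rcases dnStep hD hp0 hpP hq hkp hX (M := 5530 / 10000) (D := 8590 / 10000) (E1 := 738463 / 1000000)
    (by norm_num) (by norm_num) (by norm_num [T10]) (by norm_num) (by norm_num) h with h | h
  · exact Or.inl h
  rcases upStep hU hp0 hpP hq hX (m := 8590 / 10000) (U := 5405 / 10000) (e0 := 423583 / 1000000)
    (e1 := 423588 / 1000000) (x1 := 8590 / 10000) (f1 := 423588 / 1000000) (by norm_num) (by norm_num)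
    (by norm_num [T10]) (by norm_num [T10]) (by norm_num) (by norm_num) (by norm_num)
    (Or.inl (by norm_num)) (by norm_num [T10]) (Or.inr (by norm_num [cc])) (by norm_num) (by norm_num) h with h | h
  · exact Or.inl h
  rcases dnStep hD hp0 hpP hq hkp hX (M := 5405 / 10000) (D := 8325 / 10000) (E1 := 716868 / 1000000)
    (by norm_num) (by norm_num) (by norm_num [T10]) (by norm_num) (by norm_num) h with h | h
  · exact Or.inl h
  rcases upStep hU hp0 hpP hq hX (m := 8325 / 10000) (U := 5325 / 10000) (e0 := 434958 / 1000000)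
    (e1 := 434963 / 1000000) (x1 := 8325 / 10000) (f1 := 434963 / 1000000) (by norm_num) (by norm_num)
    (by norm_num [T10]) (by norm_num [T10]) (by norm_num) (by norm_num) (by norm_num)
    (Or.inl (by norm_num)) (by norm_num [T10]) (Or.inr (by norm_num [cc])) (by norm_num) (by norm_num) h with h | h
  · exact Or.inl h
  rcases dnStep hD hp0 hpP hq hkp hX (M := 5325 / 10000) (D := 8155 / 10000) (E1 := 703187 / 1000000)
    (by norm_num) (by norm_num) (by norm_num [T10]) (by norm_num) (by norm_num) h with h | h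
  · exact Or.inl h
  rcases upStep hU hp0 hpP hq hX (m := 8155 / 10000) (U := 5265 / 10000) (e0 := 442416 / 1000000)
    (e1 := 442421 / 1000000) (x1 := 8155 / 10000) (f1 := 442421 / 1000000) (by norm_num) (by norm_num)
    (by norm_num [T10]) (by norm_num [T10]) (by norm_num) (by norm_num) (by norm_num)
    (Or.inl (by norm_num)) (by norm_num [T10]) (Or.inr (by norm_num [cc])) (by norm_num) (by norm_num) h with h | h
  · exact Or.inl h
  rcases dnStep hD hp0 hpP hq hkp hX (M := 5265 / 10000) (D := 8030 / 10000) (E1 := 692999 / 1000000)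
    (by norm_num) (by norm_num) (by norm_num [T10]) (by norm_num) (by norm_num) h with h | h
  · exact Or.inl h
  rcases upStep hU hp0 hpP hq hX (m := 8030 / 10000) (U := 5225 / 10000) (e0 := 447980 / 1000000)
    (e1 := 447985 / 1000000) (x1 := 8030 / 10000) (f1 := 447985 / 1000000) (by norm_num) (by norm_num)
    (by norm_num [T10]) (by norm_num [T10]) (by norm_num) (by norm_num) (by norm_num)
    (Or.inl (by norm_num)) (by norm_num [T10]) (Or.inr (by norm_num [cc])) (by norm_num) (by norm_num) h with h | h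
  · exact Or.inl h
  rcases dnStep hD hp0 hpP hq hkp hX (M := 5225 / 10000) (D := 7950 / 10000) (E1 := 686240 / 1000000)
    (by norm_num) (by norm_num) (by norm_num [T10]) (by norm_num) (by norm_num) h with h | h
  · exact Or.inl h
  rcases upStep hU hp0 hpP hq hX (m := 7950 / 10000) (U := 5200 / 10000) (e0 := 451579 / 1000000)
    (e1 := 451584 / 1000000) (x1 := 7950 / 10000) (f1 := 451584 / 1000000) (by norm_num) (by norm_num)
    (by norm_num [T10]) (by norm_num [T10]) (by norm_num) (by norm_num) (by norm_num)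
    (Or.inl (by norm_num)) (by norm_num [T10]) (Or.inr (by norm_num [cc])) (by norm_num) (by norm_num) h with h | h
  · exact Or.inl h
  rcases dnStep hD hp0 hpP hq hkp hX (M := 5200 / 10000) (D := 7895 / 10000) (E1 := 682030 / 1000000)
    (by norm_num) (by norm_num) (by norm_num [T10]) (by norm_num) (by norm_num) h with h | h
  · exact Or.inl h
  rcases upStep hU hp0 hpP hq hX (m := 7895 / 10000) (U := 5180 / 10000) (e0 := 454069 / 1000000)
    (e1 := 454074 / 1000000) (x1 := 7895 / 10000) (f1 := 454074 / 1000000) (by norm_num) (by norm_num)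
    (by norm_num [T10]) (by norm_num [T10]) (by norm_num) (by norm_num) (by norm_num)
    (Or.inl (by norm_num)) (by norm_num [T10]) (Or.inr (by norm_num [cc])) (by norm_num) (by norm_num) h with h | h
  · exact Or.inl h
  rcases dnStep hD hp0 hpP hq hkp hX (M := 5180 / 10000) (D := 7855 / 10000) (E1 := 678669 / 1000000)
    (by norm_num) (by norm_num) (by norm_num [T10]) (by norm_num) (by norm_num) h with h | h
  · exact Or.inl h
  rcases upStep hU hp0 hpP hq hX (m := 7855 / 10000) (U := 5165 / 10000) (e0 := 455889 / 1000000)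
    (e1 := 455894 / 1000000) (x1 := 7855 / 10000) (f1 := 455894 / 1000000) (by norm_num) (by norm_num)
    (by norm_num [T10]) (by norm_num [T10]) (by norm_num) (by norm_num) (by norm_num)
    (Or.inl (by norm_num)) (by norm_num [T10]) (Or.inr (by norm_num [cc])) (by norm_num) (by norm_num) h with h | h
  · exact Or.inl h
  rcases dnStep hD hp0 hpP hq hkp hX (M := 5165 / 10000) (D := 7825 / 10000) (E1 := 676153 / 1000000)
    (by norm_num) (by norm_num) (by norm_num [T10]) (by norm_num) (by norm_num) h with h' | h'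
  · exact Or.inl h'
  refine Or.inr ⟨?_, ?_⟩
  · filter_upwards [h] with n hn
    have hbM : bM k = 530 / 1000 := by
      unfold bM
      rw [if_neg (by omega), if_neg (by omega), if_neg (by omega), if_neg (by omega),
        if_neg (by omega), if_neg (by omega), if_neg (by omega), if_neg (by omega),
        if_neg (by omega), if_neg (by omega)]
    rw [hbM]
    linarith
  · filter_upwards [h'] with n hn
    have hbm : bm k = 785 / 1000 := by
      unfold bm
      rw [if_neg (by omega), if_neg (by omega), if_neg (by omega), if_neg (by omega),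
        if_neg (by omega), if_neg (by omega), if_neg (by omega), if_neg (by omega),
        if_neg (by omega), if_neg (by omega)]
    rw [hbm]
    linarith

end Pool.Agent.Helper31.DL
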